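import Pool.Agent.Y661.UE.Sym
import Pool.Agent.Results.MP_562b47_mp.LocalizationToEdge

/-! The uniform law: expansion of the effective edge. -/

set_option autoImplicit false
set_option linter.unusedSectionVars false

open scoped BigOperators ENNReal Topology
open MeasureTheory ProbabilityTheory Filter

namespace Pool.Agent.Y661.UE

open Pool.Agent.Results.MP_562b47_mp.LocalizationToEdge
open Pool.Agent.Y661.EX (cb bdd_mom ep ep_taylor heB cb_neg cb_two pb_int pb_ep lim_all bco)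

/-- `m` is the spectral measure of `δ_x` for the bounded self-adjoint operator `A`: the finite
measure whose moments are `⟨δ_x, A^n δ_x⟩` -/
def IsSpectralMeasureAt {d : ℕ} (A : ((Fin d → ℤ) → ℂ) → (Fin d → ℤ) → ℂ) (x : Fin d → ℤ)
    (m : Measure ℝ) : Prop :=
  IsFiniteMeasure m ∧ ∀ n : ℕ, Integrable (fun E : ℝ => E ^ n) m ∧
    ((∫ E, E ^ n ∂m : ℝ) : ℂ) = A^[n] (Pi.single x 1) x

/-- extended ground state -/
def ExtendedGroundState {d L : ℕ} [NeZero L] (η κ Es : ℝ) (ω : T d L → ℝ) : Prop :=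
  ∃ (E₀ : ℝ) (ψ : T d L → ℝ), |E₀ - Es| ≤ κ ∧ (∀ x, 1 ≤ ψ x ∧ ψ x ≤ 1 + η) ∧
    (∀ x, HT ω ψ x = E₀ * ψ x) ∧
    ∀ f : T d L → ℝ, ∑ x, ψ x * f x = 0 →
      1 / (2 * (d : ℝ) * (L : ℝ) ^ 2) * ∑ x, f x ^ 2 ≤ ∑ x, f x * (HT ω f x - E₀ * f x)

/-- Taylor coefficients of the lowest eigenvalue -/
def IsGroundTaylor {d L : ℕ} [NeZero L] (V : T d L → ℝ) (e : ℕ → ℝ) : Prop :=
  ∀ N : ℕ, ∃ C δ : ℝ, 0 < δ ∧ ∀ c : ℝ, 0 < c → c ≤ δ → ∀ (E : ℝ) (ψ : T d L → ℝ),
    (∀ x, 0 < ψ x) → (∀ x, HT (fun y => c * V y) ψ x = E * ψ x) →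
      |E - ∑ n ∈ Finset.range (N + 1), e n * c ^ n| ≤ C * c ^ (N + 1)

theorem supp1 : unif 1 (Set.Icc (-1) 1)ᶜ = 0 := by
  unfold unif
  rw [Measure.smul_apply, Measure.restrict_apply (measurableSet_Icc.compl)]
  simp

theorem dens1 : unif 1 ≤ ENNReal.ofReal 1 • (volume : Measure ℝ) := by
  rw [Measure.le_iff]
  intro S hS
  unfold unif
  rw [Measure.smul_apply, Measure.smul_apply, smul_eq_mul, smul_eq_mul]
  exact mul_le_mul' (ENNReal.ofReal_le_ofReal (by norm_num)) (Measure.restrict_apply_le _ _)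

theorem mom1 : ∫ t, t ∂(unif 1) = 0 := by
  unfold unif
  rw [integral_smul_measure, integral_Icc_eq_integral_Ioc,
    ← intervalIntegral.integral_of_le (by norm_num)]
  simp

theorem mom2 : ∫ t, t ^ 2 ∂(unif 1) = 1 / 3 := by
  unfold unif
  rw [integral_smul_measure, integral_Icc_eq_integral_Ioc,
    ← intervalIntegral.integral_of_le (by norm_num), integral_pow]
  rw [ENNReal.toReal_ofReal (by norm_num)]
  norm_num

theorem cb_odd (d : ℕ) (hd : 4 ≤ d) (n : ℕ) : cb d (unif 1) (2 * n + 1) = 0 := by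
  have hp : IsProbabilityMeasure (unif 1) := unif_prob 1 one_pos
  have h := cb_neg d hd (unif 1) supp1 1 one_pos dens1 (2 * n + 1)
  have h2 : (unif 1).map (fun t => -t) = unif 1 := unif_neg 1
  rw [h2, pow_succ, pow_mul] at h
  norm_num at h
  linarith

theorem sum_even (a : ℕ → ℝ) (h : ∀ n, a (2 * n + 1) = 0) (c : ℝ) (N : ℕ) :
    ∑ n ∈ Finset.range (2 * N + 1 + 1), a n * c ^ n =
      ∑ n ∈ Finset.range (N + 1), a (2 * n) * c ^ (2 * n) := by
  induction N with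
  | zero =>
    have := h 0
    simp only [mul_zero, zero_add] at this ⊢
    rw [Finset.sum_range_succ, Finset.sum_range_succ]
    simp [this]
  | succ N ih =>
    have e : 2 * (N + 1) + 1 + 1 = 2 * N + 1 + 1 + 1 + 1 := by ring
    rw [e, Finset.sum_range_succ, Finset.sum_range_succ, ih, Finset.sum_range_succ _ (N + 1)]
    have h1 := h (N + 1)
    have e1 : 2 * N + 1 + 1 + 1 = 2 * (N + 1) + 1 := by ring
    have e2 : 2 * N + 1 + 1 = 2 * (N + 1) := by ring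
    rw [e1, h1, e2]
    ring

theorem H_sc {d : ℕ} (c : ℝ) (V : (Fin d → ℤ) → ℝ) :
    H (fun x => c * V x) = Pool.Agent.Results.MP_28b024_mp.MobilityEdgeScale.H c V := rfl

theorem H_div {d : ℕ} (c : ℝ) (hc : c ≠ 0) (ω : (Fin d → ℤ) → ℝ) :
    H ω = Pool.Agent.Results.MP_28b024_mp.MobilityEdgeScale.H c (fun x => ω x / c) := by
  rw [← H_sc]
  congr 1
  funext x
  field_simp

theorem HT_div {d L : ℕ} (c : ℝ) (hc : c ≠ 0) (ω f : T d L → ℝ) (x : T d L) :
    HT ω f x = Pool.Agent.Results.MP_28b024_mp.MobilityEdgeScale.HT c (fun y => ω y / c) f x := by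
  unfold HT Pool.Agent.Results.MP_28b024_mp.MobilityEdgeScale.HT
  congr 1
  field_simp

theorem ext_div {d L : ℕ} [NeZero L] (c : ℝ) (hc : c ≠ 0) (η κ Es : ℝ) (ω : T d L → ℝ)
    (h : Pool.Agent.Results.MP_28b024_mp.MobilityEdgeScale.ExtendedGroundState c η κ Es
      (fun y => ω y / c)) : ExtendedGroundState η κ Es ω := by
  obtain ⟨E0, ψ, h1, h2, h3, h4⟩ := h
  refine ⟨E0, ψ, h1, h2, fun x => ?_, fun f hf => ?_⟩
  · rw [HT_div c hc]
    exact h3 x
  · simp only [HT_div c hc]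
    exact h4 f hf

/-- **the uniform law** -/
theorem main (d : ℕ) (hd : 4 ≤ d) :
    ∃ (e : (L : ℕ) → (T d (L + 1) → ℝ) → ℕ → ℝ) (a : ℕ → ℝ),
    (∀ L V, IsGroundTaylor V (e L V)) ∧
    (∀ n, (∀ L, Integrable (fun V => e L V n) (Measure.pi fun _ : T d (L + 1) => unif 1)) ∧
      Tendsto (fun L : ℕ => ∫ V, e L V n ∂(Measure.pi fun _ : T d (L + 1) => unif 1)) atTop
        (𝓝 (a n))) ∧
    a 0 = 0 ∧ a 2 = -(Pool.Agent.Y661.ED.Gd d / 3) ∧ (∀ n, a (2 * n + 1) = 0) ∧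
    ∀ η : ℝ, 0 < η → η ≤ 1 → ∃ k K : ℝ, 0 < k ∧ 0 < K ∧ ∃ Es : ℝ → ℝ,
      (∀ N : ℕ, ∃ C : ℝ, ∀ c : ℝ, 0 < c → c ≤ k →
        |Es c - ∑ n ∈ Finset.range (N + 1), a (2 * n) * c ^ (2 * n)| ≤ C * c ^ (2 * N + 2)) ∧
      ∀ c : ℝ, 0 < c → c ≤ k →
      (∀ κ : ℝ, Real.exp (-(k * sc d c)) ≤ κ → κ ≤ 1 →
        ∀ᵐ ω ∂(Measure.infinitePi fun _ : Fin d → ℤ => unif c),
          Localized (H ω) {E | E ≤ Es c - κ ∨ 4 * d - Es c + κ ≤ E}
            (k * Real.sqrt κ / Real.log (2 / (κ * c)))) ∧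
      (∀ (L : ℕ) [NeZero L], (L : ℝ) ≤ Real.exp (k * sc d c) →
        ∃ A : Set (T d L → ℝ), MeasurableSet A ∧
          1 - Real.exp (-(k * sc d c)) ≤ (Measure.pi fun _ : T d L => unif c).real A ∧
          ∀ ω ∈ A, ExtendedGroundState η (K / (L : ℝ) ^ 2) (Es c) ω) ∧
      ∃ Bad : ((Fin d → ℤ) → ℝ) → Set (Fin d → ℤ),
        (∀ x, MeasurableSet {ω | x ∈ Bad ω}) ∧
        (∀ ω a x, x ∈ Bad (fun y => ω (y + a)) ↔ x + a ∈ Bad ω) ∧
        (∀ x, (Measure.infinitePi fun _ : Fin d → ℤ => unif c).real {ω | x ∈ Bad ω} ≤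
          Real.exp (-(k * sc d c))) ∧
        ∀ ω x, x ∉ Bad ω → ∀ κ : ℝ, Real.exp (-(k * sc d c)) ≤ κ → κ ≤ 1 →
          (∀ (E : ℝ) (u : (Fin d → ℤ) → ℂ), (E ≤ Es c + κ ∨ 4 * d - Es c - κ ≤ E) →
            SqSummable u → (∀ y, H ω u y = (E : ℂ) * u y) →
              ‖u x‖ ^ 2 ≤ K * κ ^ ((d : ℝ) / 2) * ∑' y, ‖u y‖ ^ 2) ∧
          ∀ m : Measure ℝ, IsSpectralMeasureAt (H ω) x m →
            m.real (Set.Iic (Es c + κ)) ≤ K * κ ^ ((d : ℝ) / 2) := by
  have hp : IsProbabilityMeasure (unif 1) := unif_prob 1 one_pos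
  obtain ⟨K0, hK0, hE⟩ := heB d hd (unif 1) supp1 1 one_pos dens1
  have hmo := bdd_mom (unif 1) supp1
  refine ⟨fun L V => ep V, cb d (unif 1), fun L V => ep_taylor V, fun n => ⟨fun L => ?_, ?_⟩,
    by simp [cb], ?_, cb_odd d hd, ?_⟩
  · cases n with
    | zero =>
      show Integrable (fun _ => (0 : ℝ)) _
      exact integrable_const _
    | succ n => exact pb_int (unif 1) hmo (pb_ep n)
  · cases n with
    | zero =>
      have h1 : ∀ L : ℕ, ∫ V : T d (L + 1) → ℝ, ep V 0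
          ∂(Measure.pi fun _ : T d (L + 1) => unif 1) = 0 := by
        intro L
        show ∫ V : T d (L + 1) → ℝ, (0 : ℝ) ∂(Measure.pi fun _ : T d (L + 1) => unif 1) = 0
        simp
      have h2 : cb d (unif 1) 0 = 0 := by simp [cb]
      rw [h2]
      exact tendsto_const_nhds.congr fun L => (h1 L).symm
    | succ n =>
      have h1 := lim_all (unif 1) hmo d hd (n + 1) K0 hK0 (hE (n + 1)) n (by omega)
      have e2 : cb d (unif 1) (n + 1) = bco (unif 1) d (n + 1) := if_neg (by omega)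
      rw [← e2] at h1
      exact h1
  · rw [cb_two (unif 1) hmo d hd K0 hK0 (hE 2), mom1, mom2]
    ring
  intro η hη hη1
  obtain ⟨k, K, hk, hK, h⟩ := sym d hd 1 one_pos η hη hη1
  obtain ⟨Es, hexp, h⟩ := h (unif 1) supp1 dens1 (unif_neg 1)
  refine ⟨k, K, hk, hK, Es, ?_, ?_⟩
  · intro N
    obtain ⟨C, hC⟩ := hexp (2 * N + 1)
    refine ⟨C, fun c hc hck => ?_⟩
    have h1 := hC c hc hck
    rw [sum_even _ (cb_odd d hd)] at h1
    exact h1
  intro c hc hck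
  have hPc : IsProbabilityMeasure (unif c) := unif_prob c hc
  obtain ⟨h1, h2, h3⟩ := h c hc hck
  refine ⟨?_, ?_, ?_⟩
  · intro κ hκ hκ1
    have h2' := law_map d (unif 1) (unif c) (fun t => c * t) (by fun_prop) (unif_scale c hc)
    rw [← h2']
    have hemb : MeasurableEmbedding (fun (ω : (Fin d → ℤ) → ℝ) x => c * ω x) :=
      (Homeomorph.piCongrRight fun _ => Homeomorph.mulLeft₀ c hc.ne').measurableEmbedding
    rw [hemb.ae_map_iff]
    filter_upwards [h2 κ hκ hκ1] with ω hω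
    rw [H_sc]
    exact hω
  · intro L _ hL
    obtain ⟨G, hG, hP, hF⟩ := h1 L hL
    have hm : Measurable (fun (ω : T d L → ℝ) y => ω y / c) := by fun_prop
    refine ⟨(fun ω y => ω y / c) ⁻¹' G, hm hG, ?_, fun ω hω => ext_div c hc.ne' η _ _ ω (hF _ hω)⟩
    have h1 := lawT_map d L (unif 1) (unif c) (fun t => c * t) (by fun_prop) (unif_scale c hc)
    have hm2 : Measurable (fun (ω : T d L → ℝ) x => c * ω x) := by fun_prop
    rw [← h1, map_measureReal_apply hm2 (hm hG)]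
    have h2 : (fun (ω : T d L → ℝ) x => c * ω x) ⁻¹' ((fun ω y => ω y / c) ⁻¹' G) = G := by
      ext ω
      simp only [Set.mem_preimage]
      have : (fun y => c * ω y / c) = ω := by
        funext y
        field_simp
      rw [this]
    rw [h2]
    exact hP
  · obtain ⟨Bad, B1, B2, B3, B4⟩ := h3
    have hm : Measurable (fun (ω : (Fin d → ℤ) → ℝ) y => ω y / c) := by fun_prop
    refine ⟨fun ω => Bad (fun y => ω y / c), fun x => hm (B1 x), fun ω a x => ?_, fun x => ?_, ?_⟩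
    · exact B2 (fun y => ω y / c) a x
    · have h1 := law_map d (unif 1) (unif c) (fun t => c * t) (by fun_prop) (unif_scale c hc)
      have hm2 : Measurable (fun (ω : (Fin d → ℤ) → ℝ) x => c * ω x) := by fun_prop
      have hms : MeasurableSet {ω : (Fin d → ℤ) → ℝ | x ∈ Bad (fun y => ω y / c)} := hm (B1 x)
      show (Measure.infinitePi fun _ : Fin d → ℤ => unif c).real
        {ω : (Fin d → ℤ) → ℝ | x ∈ Bad (fun y => ω y / c)} ≤ _
      rw [← h1, map_measureReal_apply hm2 hms]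
      have h2 : (fun (ω : (Fin d → ℤ) → ℝ) x => c * ω x) ⁻¹'
          {ω : (Fin d → ℤ) → ℝ | x ∈ Bad (fun y => ω y / c)} = {ω | x ∈ Bad ω} := by
        ext ω
        simp only [Set.mem_preimage, Set.mem_setOf_eq]
        have : (fun y => c * ω y / c) = ω := by
          funext y
          field_simp
        rw [this]
      rw [h2]
      exact B3 x
    · intro ω x hx κ hκ hκ1
      rw [H_div c hc.ne' ω]
      exact B4 _ x hx κ hκ hκ1

end Pool.Agent.Y661.UE
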