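import Pool.Agent.Y661.EX.BddA

/-! Symmetric laws with bounded density on `[-1,1]`: one effective edge. -/

set_option autoImplicit false
set_option linter.unusedSectionVars false

open scoped BigOperators ENNReal Topology
open MeasureTheory ProbabilityTheory Filter

namespace Pool.Agent.Y661.UE

open Pool.Agent.Results.MP_28b024_mp.MobilityEdgeScale
open Pool.Agent.Y661.EX

/-- two events of probability more than `1/2` meet -/
theorem inter_ne {Ω : Type*} [MeasurableSpace Ω] (P : Measure Ω) [IsProbabilityMeasure P]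
    (A B : Set Ω) (hB : MeasurableSet B) (h1 : 1 / 2 < P.real A) (h2 : 1 / 2 < P.real B) :
    (A ∩ B).Nonempty := by
  by_contra h
  rw [Set.not_nonempty_iff_eq_empty] at h
  have hd : Disjoint A B := Set.disjoint_iff_inter_eq_empty.2 h
  have h3 := measureReal_union (μ := P) hd hB
  have h4 : P.real (A ∪ B) ≤ 1 := measureReal_le_one
  linarith

/-- the two edges are mirror images up to an exponentially small error -/
theorem mirror (d : ℕ) (k K η lam Em Ep : ℝ) (hk : 0 < k) (hK : 0 < K)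
    (μ : Measure ℝ) [IsProbabilityMeasure μ]
    (hsc : 0 < sc d lam) (he : Real.exp (-(k * sc d lam)) < 1 / 2)
    (h1 : ∀ (L : ℕ) [NeZero L], (L : ℝ) ≤ Real.exp (k * sc d lam) →
        ∃ G : Set (T d L → ℝ), MeasurableSet G ∧
          1 - Real.exp (-(k * sc d lam)) ≤ (Measure.pi fun _ : T d L => μ).real G ∧
          ∀ V ∈ G, ExtendedGroundState lam η (K / (L : ℝ) ^ 2) Em V)
    (h2 : ∀ (L : ℕ) [NeZero L], (L : ℝ) ≤ Real.exp (k * sc d lam) →
        ∃ G : Set (T d L → ℝ), MeasurableSet G ∧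
          1 - Real.exp (-(k * sc d lam)) ≤ (Measure.pi fun _ : T d L => μ).real G ∧
          ∀ V ∈ G, ExtendedGroundState lam η (K / (L : ℝ) ^ 2) (4 * d - Ep) V) :
    |Em - (4 * d - Ep)| ≤ 8 * K * Real.exp (-(2 * (k * sc d lam))) := by
  set X := k * sc d lam with hX
  have hX0 : 0 < X := mul_pos hk hsc
  obtain ⟨L, hL⟩ : ∃ L : ℕ, L = ⌊Real.exp X⌋₊ := ⟨_, rfl⟩
  have hX1 : 1 ≤ Real.exp X := Real.one_le_exp hX0.le
  have hL1 : 1 ≤ L := by
    rw [hL]
    exact Nat.le_floor (by simpa using hX1)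
  have hne : NeZero L := ⟨by omega⟩
  have hLe : (L : ℝ) ≤ Real.exp X := by
    rw [hL]
    exact Nat.floor_le (Real.exp_pos _).le
  have hLg : Real.exp X / 2 ≤ L := by
    have h3 : Real.exp X < (L : ℝ) + 1 := by
      rw [hL]
      exact Nat.lt_floor_add_one _
    have h4 : (1 : ℝ) ≤ L := by exact_mod_cast hL1
    linarith
  obtain ⟨A, hA, hPA, hAV⟩ := h1 L hLe
  obtain ⟨B, hB, hPB, hBV⟩ := h2 L hLe
  obtain ⟨V, hV1, hV2⟩ := inter_ne (Measure.pi fun _ : T d L => μ) A B hB (by linarith) (by linarith)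
  obtain ⟨E1, ψ1, a1, a2, a3, -⟩ := hAV V hV1
  obtain ⟨E2, ψ2, b1, b2, b3, -⟩ := hBV V hV2
  have hE : E1 = E2 := same_energy lam η V E1 E2 ψ1 ψ2 a2 b2
    (fun x => by rw [← HT_eq]; exact a3 x) (fun x => by rw [← HT_eq]; exact b3 x)
  subst hE
  have h3 : |Em - (4 * d - Ep)| ≤ K / (L : ℝ) ^ 2 + K / (L : ℝ) ^ 2 := by
    have e1 : Em - (4 * d - Ep) = -(E1 - Em) + (E1 - (4 * d - Ep)) := by ring
    rw [e1]
    refine (abs_add_le _ _).trans ?_
    rw [abs_neg]
    linarith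
  have h4 : K / (L : ℝ) ^ 2 ≤ 4 * K * Real.exp (-(2 * X)) := by
    have h5 : (Real.exp X / 2) ^ 2 ≤ (L : ℝ) ^ 2 := by
      have : 0 ≤ Real.exp X / 2 := by positivity
      gcongr
    have h6 : K / (L : ℝ) ^ 2 ≤ K / (Real.exp X / 2) ^ 2 := by
      apply div_le_div_of_nonneg_left hK.le _ h5
      positivity
    refine h6.trans (le_of_eq ?_)
    have e2 : Real.exp (-(2 * X)) = (Real.exp X ^ 2)⁻¹ := by
      rw [Real.exp_neg, two_mul, Real.exp_add]
      ring_nf
    rw [e2]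
    have := Real.exp_pos X
    field_simp
    ring
  linarith

/-- **one effective edge for symmetric laws** -/
theorem sym (d : ℕ) (hd : 4 ≤ d) (M : ℝ) (hM : 0 < M) (η : ℝ) (hη : 0 < η) (hη' : η ≤ 1) :
    ∃ k K : ℝ, 0 < k ∧ 0 < K ∧ ∀ (μ : Measure ℝ) [IsProbabilityMeasure μ],
      μ (Set.Icc (-1) 1)ᶜ = 0 → μ ≤ ENNReal.ofReal M • (volume : Measure ℝ) →
      (μ.map fun t => -t) = μ →
      ∃ Es : ℝ → ℝ,
      (∀ N : ℕ, ∃ C : ℝ, ∀ lam : ℝ, 0 < lam → lam ≤ k →
        |Es lam - ∑ n ∈ Finset.range (N + 1), cb d μ n * lam ^ n| ≤ C * lam ^ (N + 1)) ∧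
      ∀ lam : ℝ, 0 < lam → lam ≤ k →
      (∀ (L : ℕ) [NeZero L], (L : ℝ) ≤ Real.exp (k * sc d lam) →
        ∃ G : Set (T d L → ℝ), MeasurableSet G ∧
          1 - Real.exp (-(k * sc d lam)) ≤ (Measure.pi fun _ : T d L => μ).real G ∧
          ∀ V ∈ G, ExtendedGroundState lam η (K / (L : ℝ) ^ 2) (Es lam) V) ∧
      (∀ κ : ℝ, Real.exp (-(k * sc d lam)) ≤ κ → κ ≤ 1 →
        ∀ᵐ ω ∂(Measure.infinitePi fun _ : Fin d → ℤ => μ),
          Localized (H lam ω) {E | E ≤ Es lam - κ ∨ 4 * d - Es lam + κ ≤ E}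
            (k * Real.sqrt κ / Real.log (2 / (κ * lam)))) ∧
      ∃ Bad : ((Fin d → ℤ) → ℝ) → Set (Fin d → ℤ),
        (∀ x, MeasurableSet {ω | x ∈ Bad ω}) ∧
        (∀ ω a x, x ∈ Bad (fun y => ω (y + a)) ↔ x + a ∈ Bad ω) ∧
        (∀ x, (Measure.infinitePi fun _ : Fin d → ℤ => μ).real {ω | x ∈ Bad ω} ≤
          Real.exp (-(k * sc d lam))) ∧
        ∀ ω x, x ∉ Bad ω → ∀ κ : ℝ, Real.exp (-(k * sc d lam)) ≤ κ → κ ≤ 1 →
          (∀ (E : ℝ) (u : (Fin d → ℤ) → ℂ), (E ≤ Es lam + κ ∨ 4 * d - Es lam - κ ≤ E) →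
            SqSummable u → (∀ y, H lam ω u y = (E : ℂ) * u y) →
              ‖u x‖ ^ 2 ≤ K * κ ^ ((d : ℝ) / 2) * ∑' y, ‖u y‖ ^ 2) ∧
          ∀ m : Measure ℝ, IsSpectralMeasureAt (H lam ω) x m →
            m.real (Set.Iic (Es lam + κ)) ≤ K * κ ^ ((d : ℝ) / 2) := by
  obtain ⟨k, K, hk, hK, h⟩ := result d hd M hM η hη hη'
  -- smallness
  obtain ⟨t, ht⟩ : ∃ t : ℝ, t = Real.log (16 * K + 3) := ⟨_, rfl⟩
  have ht0 : 0 < t := by
    rw [ht]
    exact Real.log_pos (by linarith)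
  obtain ⟨k', hk'⟩ : ∃ k' : ℝ, k' = min (k / 3) (min 1 (k / (2 * t))) := ⟨_, rfl⟩
  have hk'0 : 0 < k' := by rw [hk']; positivity
  have hk'3 : k' ≤ k / 3 := by rw [hk']; exact min_le_left _ _
  have hk'1 : k' ≤ 1 := by rw [hk']; exact (min_le_right _ _).trans (min_le_left _ _)
  have hk't : k' ≤ k / (2 * t) := by rw [hk']; exact (min_le_right _ _).trans (min_le_right _ _)
  have hk'k : k' ≤ k := by linarith
  refine ⟨k', K * 2 ^ ((d : ℝ) / 2) + 2 ^ ((d : ℝ) / 2), hk'0, by positivity, ?_⟩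
  intro μ _ hs hD hsym
  have h' := h μ hs hD
  choose! Em Ep h1 h2 h3 h4 h5 h6 using h'
  rw [hsym] at h4
  refine ⟨Em, ?_, ?_⟩
  · intro N
    obtain ⟨C1, hC1, hc1⟩ := expB μ (bdd_mom μ hs) d hd k K hk hK.le
      (fun lam hl hlk => ⟨Em lam, flatB_of d η μ k K lam (Em lam) (h3 lam hl hlk)⟩) N
    exact ⟨C1, fun lam hl hlk => hc1 lam hl (hlk.trans hk'k) (Em lam)
      ((h1 lam hl (hlk.trans hk'k)).trans (hlk.trans hk'k))
      (flatB_of d η μ k K lam (Em lam) (h3 lam hl (hlk.trans hk'k)))⟩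
  intro lam hl hlk'
  have hlk : lam ≤ k := hlk'.trans hk'k
  have hl1 : lam ≤ 1 := hlk'.trans hk'1
  have hsc : 1 / lam ≤ sc d lam := sc_ge d hd lam hl hl1
  have hsc0 : 0 < sc d lam := lt_of_lt_of_le (by positivity) hsc
  -- `k sc ≥ 2 t`
  have hbig : 2 * t ≤ k * sc d lam := by
    have a1 : 2 * t / k ≤ 1 / lam := by
      rw [div_le_div_iff₀ hk hl]
      have : lam ≤ k / (2 * t) := hlk'.trans hk't
      rw [le_div_iff₀ (by positivity)] at this
      linarith
    calc 2 * t = k * (2 * t / k) := by field_simp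
      _ ≤ k * sc d lam := mul_le_mul_of_nonneg_left (a1.trans hsc) hk.le
  have hexpt : Real.exp t = 16 * K + 3 := by
    rw [ht, Real.exp_log (by linarith)]
  have het : Real.exp (-t) = (16 * K + 3)⁻¹ := by rw [Real.exp_neg, hexpt]
  have hehalf : Real.exp (-(k * sc d lam)) ≤ Real.exp (-t) := Real.exp_le_exp.2 (by linarith)
  have het2 : Real.exp (-t) < 1 / 2 := by
    rw [het, inv_lt_comm₀ (by linarith) (by norm_num)]
    linarith
  have hm0 := mirror d k K η lam (Em lam) (Ep lam) hk hK μ hsc0 (by linarith) (h3 lam hl hlk)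
    (h4 lam hl hlk)
  -- the relevant `κ`
  have hkey : ∀ κ : ℝ, Real.exp (-(k' * sc d lam)) ≤ κ →
      Real.exp (-(k * sc d lam)) ≤ κ / 2 ∧ |Em lam - (4 * d - Ep lam)| ≤ κ / 2 := by
    intro κ hκ
    have b1 : k' * sc d lam ≤ k * sc d lam / 2 := by
      have : k' ≤ k / 2 := by linarith
      nlinarith
    have b2 : Real.exp (-(k * sc d lam / 2)) ≤ κ :=
      le_trans (Real.exp_le_exp.2 (by linarith)) hκ
    have b3 : Real.exp (-(k * sc d lam)) =
        Real.exp (-(k * sc d lam / 2)) * Real.exp (-(k * sc d lam / 2)) := by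
      rw [← Real.exp_add]
      congr 1
      ring
    have b4 : Real.exp (-(k * sc d lam / 2)) ≤ (16 * K + 3)⁻¹ := by
      rw [← het]
      exact Real.exp_le_exp.2 (by linarith)
    have b5 : 0 < Real.exp (-(k * sc d lam / 2)) := Real.exp_pos _
    have b6 : (16 * K + 3)⁻¹ ≤ 1 / 2 := by
      rw [inv_le_comm₀ (by linarith) (by norm_num)]
      linarith
    have b7 : 16 * K * (16 * K + 3)⁻¹ ≤ 1 := by
      rw [← div_eq_mul_inv, div_le_one (by linarith)]
      linarith
    constructor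
    · rw [b3]
      nlinarith
    · have b8 : Real.exp (-(2 * (k * sc d lam))) ≤ Real.exp (-(k * sc d lam)) := by
        apply Real.exp_le_exp.2
        have := mul_pos hk hsc0
        linarith
      have b9 : 8 * K * Real.exp (-(2 * (k * sc d lam))) ≤
          8 * K * (Real.exp (-(k * sc d lam / 2)) * (16 * K + 3)⁻¹) := by
        have : Real.exp (-(2 * (k * sc d lam))) ≤
            Real.exp (-(k * sc d lam / 2)) * (16 * K + 3)⁻¹ := by
          refine b8.trans ?_
          rw [b3]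
          exact mul_le_mul_of_nonneg_left b4 b5.le
        exact mul_le_mul_of_nonneg_left this (by positivity)
      have b10 : 8 * K * (Real.exp (-(k * sc d lam / 2)) * (16 * K + 3)⁻¹) ≤ κ / 2 := by
        have : 8 * K * (Real.exp (-(k * sc d lam / 2)) * (16 * K + 3)⁻¹) =
            (16 * K * (16 * K + 3)⁻¹) * (Real.exp (-(k * sc d lam / 2)) / 2) := by ring
        rw [this]
        have c1 : (16 * K * (16 * K + 3)⁻¹) * (Real.exp (-(k * sc d lam / 2)) / 2) ≤
            1 * (Real.exp (-(k * sc d lam / 2)) / 2) :=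
          mul_le_mul_of_nonneg_right b7 (by positivity)
        linarith
      exact hm0.trans (b9.trans b10)
  have hks : k' * sc d lam ≤ k * sc d lam := by nlinarith
  have hexpk : Real.exp (k' * sc d lam) ≤ Real.exp (k * sc d lam) := Real.exp_le_exp.2 hks
  have hexpk' : Real.exp (-(k * sc d lam)) ≤ Real.exp (-(k' * sc d lam)) :=
    Real.exp_le_exp.2 (by linarith)
  have h2d : (1 : ℝ) ≤ 2 ^ ((d : ℝ) / 2) := Real.one_le_rpow (by norm_num) (by positivity)
  set K' : ℝ := K * 2 ^ ((d : ℝ) / 2) + 2 ^ ((d : ℝ) / 2) with hK'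
  have hKK' : K ≤ K' := by
    rw [hK']
    nlinarith
  have hcK : ∀ κ : ℝ, 0 < κ → K * (2 * κ) ^ ((d : ℝ) / 2) ≤ K' * κ ^ ((d : ℝ) / 2) := by
    intro κ hκ
    rw [Real.mul_rpow (by norm_num) hκ.le, hK']
    have : 0 ≤ (2 : ℝ) ^ ((d : ℝ) / 2) * κ ^ ((d : ℝ) / 2) := by positivity
    linarith
  have hK1 : ∀ κ : ℝ, 1 / 2 < κ → 1 ≤ K' * κ ^ ((d : ℝ) / 2) := by
    intro κ hκ
    have c1 : (1 : ℝ) ≤ 2 ^ ((d : ℝ) / 2) * κ ^ ((d : ℝ) / 2) := by
      rw [← Real.mul_rpow (by norm_num) (by linarith)]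
      exact Real.one_le_rpow (by linarith) (by positivity)
    have c2 : 0 ≤ K * 2 ^ ((d : ℝ) / 2) * κ ^ ((d : ℝ) / 2) := by positivity
    rw [hK']
    linarith
  refine ⟨?_, ?_, ?_⟩
  · intro L _ hL
    obtain ⟨G, hG, hP, hV⟩ := h3 lam hl hlk L (hL.trans hexpk)
    refine ⟨G, hG, by linarith, fun V hVG => ?_⟩
    obtain ⟨E0, ψ, a1, a2, a3, a4⟩ := hV V hVG
    refine ⟨E0, ψ, a1.trans ?_, a2, a3, a4⟩
    gcongr
  · intro κ hκ hκ1
    obtain ⟨k1, k2⟩ := hkey κ hκ
    have hκ0 : 0 < κ := lt_of_lt_of_le (Real.exp_pos _) hκ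
    filter_upwards [h5 lam hl hlk (κ / 2) k1 (by linarith)] with ω hω
    obtain ⟨g1, N, g2, g3⟩ := hω
    have hsub : {E : ℝ | E ≤ Em lam - κ ∨ 4 * d - Em lam + κ ≤ E} ⊆
        {E | E ≤ Em lam - κ / 2 ∨ Ep lam + κ / 2 ≤ E} := by
      rintro E (hE | hE)
      · left
        linarith
      · right
        have := (abs_le.1 k2).2
        linarith
    have hrate : k' * Real.sqrt κ / Real.log (2 / (κ * lam)) ≤
        k * Real.sqrt (κ / 2) / Real.log (2 / (κ / 2 * lam)) := by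
      have hx : κ * lam ≤ 1 := by nlinarith
      have hx0 : 0 < κ * lam := by positivity
      have q1 : 0 < Real.log (2 / (κ * lam)) := by
        apply Real.log_pos
        rw [lt_div_iff₀ hx0]
        linarith
      have q2 : 2 / (κ / 2 * lam) ≤ (2 / (κ * lam)) ^ 2 := by
        have : 2 / (κ / 2 * lam) = 4 / (κ * lam) := by
          field_simp
          norm_num
        rw [this, div_pow, div_le_div_iff₀ hx0 (by positivity)]
        nlinarith
      have q3 : Real.log (2 / (κ / 2 * lam)) ≤ 2 * Real.log (2 / (κ * lam)) := by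
        rw [← Real.log_rpow (by positivity)]
        refine Real.log_le_log (by positivity) ?_
        rw [Real.rpow_two]
        exact q2
      have q4 : 0 < Real.log (2 / (κ / 2 * lam)) := by
        apply Real.log_pos
        rw [lt_div_iff₀ (by positivity)]
        linarith
      have q5 : 2 / 3 * Real.sqrt κ ≤ Real.sqrt (κ / 2) := by
        apply Real.le_sqrt_of_sq_le
        rw [mul_pow, Real.sq_sqrt hκ0.le]
        linarith
      rw [div_le_div_iff₀ q1 q4]
      have q6 : k' * Real.sqrt κ * Real.log (2 / (κ / 2 * lam)) ≤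
          k / 3 * Real.sqrt κ * (2 * Real.log (2 / (κ * lam))) := by
        gcongr
      have q7 : k * (2 / 3 * Real.sqrt κ) * Real.log (2 / (κ * lam)) ≤
          k * Real.sqrt (κ / 2) * Real.log (2 / (κ * lam)) := by
        gcongr
      linarith
    refine ⟨fun E hE ψ hψ hEψ => ?_, N, g2, fun g m hg hm => ?_⟩
    · obtain ⟨C, hC⟩ := g1 E (hsub hE) ψ hψ hEψ
      refine ⟨C, fun x => (hC x).trans ?_⟩
      have hC0 : 0 ≤ C := by
        have h7 := (norm_nonneg _).trans (hC 0)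
        simpa using h7
      apply mul_le_mul_of_nonneg_left _ hC0
      apply Real.exp_le_exp.2
      have := mul_le_mul_of_nonneg_right hrate (norm_nonneg x)
      linarith
    · exact measure_mono_null (Set.sdiff_subset_sdiff_left hsub) (g3 g m hg hm)
  · obtain ⟨Bad, B1, B2, B3, B4⟩ := h6 lam hl hlk
    refine ⟨Bad, B1, B2, fun x => (B3 x).trans hexpk', ?_⟩
    intro ω x hx κ hκ hκ1
    obtain ⟨k1, k2⟩ := hkey κ hκ
    have hκ0 : 0 < κ := lt_of_lt_of_le (Real.exp_pos _) hκ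
    rcases le_or_gt κ (1 / 2) with hc | hc
    · obtain ⟨D1, D2⟩ := B4 ω x hx (2 * κ) (by linarith) (by linarith)
      refine ⟨fun E u hE hu heq => ?_, fun m hm => ?_⟩
      · refine (D1 E u ?_ hu heq).trans ?_
        · rcases hE with hE | hE
          · left; linarith
          · right
            have := (abs_le.1 k2).1
            have := (abs_le.1 k2).2
            linarith
        · exact mul_le_mul_of_nonneg_right (hcK κ hκ0) (tsum_nonneg fun _ => by positivity)
      · refine le_trans ?_ ((D2 m hm).trans (hcK κ hκ0))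
        have := hm.1
        exact measureReal_mono (Set.Iic_subset_Iic.2 (by linarith))
    · refine ⟨fun E u hE hu heq => ?_, fun m hm => ?_⟩
      · have c1 : ‖u x‖ ^ 2 ≤ ∑' y, ‖u y‖ ^ 2 := hu.le_tsum x (fun _ _ => by positivity)
        have c2 : (0 : ℝ) ≤ ∑' y, ‖u y‖ ^ 2 := tsum_nonneg fun _ => by positivity
        have := hK1 κ hc
        nlinarith
      · have := hm.1
        have c3 : m.real Set.univ = 1 := by
          have h0 := (hm.2 0).2
          simpa using h0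
        have c4 : m.real (Set.Iic (Em lam + κ)) ≤ m.real Set.univ :=
          measureReal_mono (Set.subset_univ _)
        have := hK1 κ hc
        linarith

end Pool.Agent.Y661.UE
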